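import Mathlib
import Pool.Agent.Y793.Stm2

/-!
Statements (NOT results) of the pieces of the project `G ≀ A_n` over `K(t)` (helper70, problem
MP_dadaab_nt): for every finite perfect group `G` there is `m` such that for all large `k` the group
`G ≀ A_(m (2 k + 1))` is a regular Galois group over `K(t)` for all fields `K` of characteristic
zero.
-/

set_option autoImplicit false

namespace Pool.Agent.N70.AW

open Polynomial Pool.Agent.H391R2 Pool.Agent.H391R2.T4 Pool.Agent.Y793

/-- The polynomial `p` in the variable of `K(t)`, as an element of the field `Z`. -/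
noncomputable def pz {K : Type} (Z : Type) [Field K] [Field Z] [Algebra (RatFunc K) Z] (p : K[X]) :
    Z :=
  algebraMap (RatFunc K) Z (algebraMap K[X] (RatFunc K) p)

/-- The action of `Γ` on the cosets of `P`, a set with `m` elements, is even. -/
def EvenIndex (Γ : Type) [Group Γ] (P : Subgroup Γ) (m : ℕ) : Prop :=
  ∃ g : Fin m → Γ, Function.Bijective (fun t => (g t : Γ ⧸ P)) ∧
    ∀ (γ : Γ) (π : Equiv.Perm (Fin m)), (∀ t, ((γ * g t : Γ) : Γ ⧸ P) = (g (π t) : Γ ⧸ P)) →
      Equiv.Perm.sign π = 1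

/-- The data. `Z` is a Galois extension of `K(t)`, `P` a subgroup of its group, `e` a basis of the
fixed field of `P` over `K(t)`, `es` the dual basis for the trace form, `S` the Gram matrix of `e`,
`κ j` polynomials and `v j`, `x i j` elements of the fixed field such that, for `d/dt`, the element
`∫ (κ i κ j) + x i j` has derivative `v i * v j` (field `der`); `M i j` is the matrix of the
multiplication by `x i j` in the basis `e`. -/
structure Dt {K Z ι : Type} [Field K] [Field Z] [Algebra (RatFunc K) Z] [Fintype ι]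
    (P : Subgroup (Z ≃ₐ[RatFunc K] Z)) (m k d : ℕ) (κ : Option ι → K[X]) (v : Option ι → Z)
    (x : Option ι → Option ι → Z) (e es : Fin m → Z) (S : Matrix (Fin m) (Fin m) K[X]) (q : K[X])
    (M L : Option ι → Option ι → Matrix (Fin m) (Fin m) K[X]) : Prop where
  fix_e : ∀ l, ∀ γ ∈ P, γ (e l) = e l
  fix_es : ∀ l, ∀ γ ∈ P, γ (es l) = es l
  fix_v : ∀ j, ∀ γ ∈ P, γ (v j) = v j
  fix_x : ∀ i j, ∀ γ ∈ P, γ (x i j) = x i j
  dual1 : ∑ l, e l * es l = 1
  dual0 : ∀ γ : Z ≃ₐ[RatFunc K] Z, γ ∉ P → ∑ l, e l * γ (es l) = 0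
  e_es : ∀ l, e l = ∑ l', pz Z (S l l') * es l'
  det : S.det = q ^ 2
  q_ne : q ≠ 0
  symS : S.transpose = S
  mul_e : ∀ i j l', x i j * e l' = ∑ l, pz Z (M i j l l') * e l
  mul_es : ∀ i j l, x i j * es l = ∑ l', pz Z (M i j l l') * es l'
  fac : ∀ i j, M i j = L i j * S
  symL : ∀ i j, (L i j).transpose = L i j
  deg : ∀ i j l l', (M i j l l').natDegree ≤ d
  symx : ∀ i j, x i j = x j i
  symM : ∀ i j, L i j = L j i
  zero : ∀ i j : ι, x (some i) (some j) = 0
  zeroM : ∀ i j : ι, L (some i) (some j) = 0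
  der : ∀ i j, v i * v j = pz Z (κ i * κ j) +
    ∑ l, ∑ l', e l * pz Z (derivative (M i j l l')) * es l'
  v_some : ∀ i : ι, v (some i) = pz Z (κ (some i))
  stab : ∀ γ : Z ≃ₐ[RatFunc K] Z, (∀ i : ι, γ (x (some i) none) = x (some i) none) → γ ∈ P
  lin : LinearIndependent K (fun i : ι => κ (some i))
  kdeg : ∀ j, (κ j).natDegree ≤ k
  ktop : ∃ i : ι, (κ (some i)).natDegree = k
  dk : d ≤ 2 * k
  card : k + 3 < 2 * Fintype.card ι

/-- DATA: existence of the data, with a polynomial `κ (some none)` of degree `k` such that without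
it one has data for `k - 2`. -/
def St_dat : Prop :=
  ∀ (K Z : Type) [Field K] [CharZero K] [Field Z] [Algebra (RatFunc K) Z] [Algebra K Z]
    [IsScalarTower K (RatFunc K) Z] [FiniteDimensional (RatFunc K) Z] [IsGalois (RatFunc K) Z],
    (∀ y : Z, IsAlgebraic K y → y ∈ Set.range (algebraMap K Z)) →
    ∀ (P : Subgroup (Z ≃ₐ[RatFunc K] Z)) (m : ℕ), EvenIndex (Z ≃ₐ[RatFunc K] Z) P m →
    ∃ k₀ : ℕ, ∀ k ≥ k₀, ∃ (p d : ℕ) (κ : Option (Option (Fin p)) → K[X])
      (v : Option (Option (Fin p)) → Z)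
      (x : Option (Option (Fin p)) → Option (Option (Fin p)) → Z) (e es : Fin m → Z)
      (S : Matrix (Fin m) (Fin m) K[X]) (q : K[X])
      (M L : Option (Option (Fin p)) → Option (Option (Fin p)) → Matrix (Fin m) (Fin m) K[X]),
      Dt P m (k + 2) d κ v x e es S q M L ∧ (κ (some none)).natDegree = k + 2 ∧
      Dt P m k d (fun j => κ (j.map some)) (fun j => v (j.map some))
        (fun i j => x (i.map some) (j.map some)) e es S q
        (fun i j => M (i.map some) (j.map some)) (fun i j => L (i.map some) (j.map some))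

/-- EVN: evenness of the action on the points. -/
def St_even : Prop :=
  ∀ (N : Type) [Field N] [IsAlgClosed N] [CharZero N] (σ : N ≃+* N) (m b : ℕ) (T : N)
    (A q : N[X]) (S L PP : Matrix (Fin m) (Fin m) N[X]) (r : Fin (m * b) → N)
    (e es : Fin (m * b) → Fin m → N) (s : Fin (m * b) → N) (π : Equiv.Perm (Fin (m * b))),
    Even m → 0 < m → 0 < b → A.natDegree = b → S.det = q ^ 2 → S.transpose = S →
    L.transpose = L → (∀ l l', ((L * S) l l').natDegree < b) → IsCoprime (C T - A) q →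
    PP = (C T - A) • (1 : Matrix (Fin m) (Fin m) N[X]) - L * S →
    σ T = T → A.map (σ : N →+* N) = A → q.map (σ : N →+* N) = q →
    (∀ l l', (S l l').map (σ : N →+* N) = S l l') →
    (∀ l l', (L l l').map (σ : N →+* N) = L l l') →
    Function.Injective r → (∀ i, s i ≠ 0) →
    (∀ i l', ∑ l, e i l * (PP l l').eval (r i) = 0) →
    (∀ i l, ∑ l', (PP l l').eval (r i) * es i l' = 0) →
    (∀ i, ∑ l, e i l * es i l = 1) →
    (∀ i, ∑ l, ∑ l', e i l * (derivative (PP l l')).eval (r i) * es i l' = -(s i) ^ 2) →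
    (∀ i l, e i l = ∑ l', (S l l').eval (r i) * es i l') →
    (∀ i, σ (r i) = r (π i)) → (∀ i l, σ (e i l) = e (π i) l) → (∀ i, σ (s i) = s (π i)) →
    Equiv.Perm.sign π = 1

/-- SMALL: a doubly transitive group of permutations (with labels) of degree `n` with an element
`≠ 1` which moves at most `b` points, `b ^ 2 < n`, has an element which is a three-cycle. -/
def St_small : Prop :=
  ∀ (G : Type) [Group G] [Finite G] (n b : ℕ) (H : Subgroup (Wr G n)), b * b < n →
    (∀ a c a' c' : Fin n, a ≠ c → a' ≠ c' → ∃ x ∈ H, x.right a = a' ∧ x.right c = c') →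
    (∃ x ∈ H, x.right ≠ 1 ∧ x.right.support.card ≤ b) → ∃ x ∈ H, x.right.IsThreeCycle

/-- EMB: embeddings in symmetric groups. -/
def St_emb : Prop :=
  ∀ (G : Type) [Group G] [Finite G], commutator G = ⊤ → ∀ n₀ : ℕ, ∃ (n : ℕ)
    (P : Subgroup (Equiv.Perm (Fin n))) (m : ℕ), n₀ ≤ n ∧ Nonempty (P ≃* G) ∧ Even m ∧ 0 < m ∧
    EvenIndex (Equiv.Perm (Fin n)) P m

/-- HENS: a polynomial over power series whose degree drops modulo the maximal ideal. -/
def St_hens : Prop :=
  ∀ (κ : Type) [Field κ] [IsAlgClosed κ] [CharZero κ] (f : Polynomial (PowerSeries κ)) (n n' : ℕ),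
    f.natDegree = n → (f.map PowerSeries.constantCoeff).natDegree = n' →
    (f.map PowerSeries.constantCoeff).Separable → n' < n →
    (∀ y : LaurentSeries κ, (f.map (algebraMap (PowerSeries κ) (LaurentSeries κ))).eval y = 0 →
      y ∈ Set.range (algebraMap (PowerSeries κ) (LaurentSeries κ))) →
    ∀ (Ω : Type) [Field Ω] [IsAlgClosed Ω] [Algebra (LaurentSeries κ) Ω]
      [Algebra.IsAlgebraic (LaurentSeries κ) Ω] (r : Fin n → Ω), Function.Injective r →
      (∀ i, ((f.map (algebraMap (PowerSeries κ) (LaurentSeries κ))).map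
        (algebraMap (LaurentSeries κ) Ω)).eval (r i) = 0) →
      ∃ (τ : Ω ≃ₐ[LaurentSeries κ] Ω) (π : Equiv.Perm (Fin n)), (∀ i, τ (r i) = r (π i)) ∧
        π ≠ 1 ∧ π.support.card ≤ n - n'

/-- VAL: integrality of the solutions in Laurent series. -/
def St_val : Prop :=
  ∀ (κ : Type) [Field κ] [CharZero κ] (k d m : ℕ) (α β : κ[X]), α.natDegree ≤ k →
    β.natDegree = k + 2 → d ≤ 2 * k →
    ∀ (T : PowerSeries κ) (A : Polynomial (PowerSeries κ))
      (M : Matrix (Fin m) (Fin m) (Polynomial (PowerSeries κ))),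
      A = adr κ ((α.map (PowerSeries.C (R := κ)) +
        C PowerSeries.X * β.map (PowerSeries.C (R := κ)) : Polynomial (PowerSeries κ)) ^ 2) →
      (∀ l l', (M l l').natDegree ≤ d) →
    ∀ y : LaurentSeries κ,
      (((C T - A) • (1 : Matrix (Fin m) (Fin m) (Polynomial (PowerSeries κ))) - M).det.map
            (algebraMap (PowerSeries κ) (LaurentSeries κ))).eval y = 0 →
      y ∈ Set.range (algebraMap (PowerSeries κ) (LaurentSeries κ))

/-- The main theorem of the project. -/
def St_wr : Prop :=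
  ∀ (K : Type) [Field K] [CharZero K] (Γ : Type) [Group Γ] [Finite Γ], RegSol K K Γ 1 →
    ∀ (P : Subgroup Γ) (m : ℕ), commutator P = ⊤ → Even m → 0 < m → EvenIndex Γ P m →
    ∃ k₀ : ℕ, ∀ k ≥ k₀, RegSol K K (AWr P (m * (2 * k + 1))) 1

end Pool.Agent.N70.AW
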