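import Mathlib
import Pool.Agent.N70.AW.Fa
import Pool.Agent.Y793.Lin

set_option autoImplicit false
set_option linter.unusedSectionVars false
set_option linter.unusedSimpArgs false

namespace Pool.Agent.N70.AW

open Polynomial Pool.Agent.Y793

/-- The properties of a family of polynomials used for the relations. -/
structure Fm {K ι : Type} [Field K] [Fintype ι] (κ : Option ι → K[X]) (k : ℕ) : Prop where
  lin : LinearIndependent K (fun i : ι => κ (some i))
  kdeg : ∀ i : ι, (κ (some i)).natDegree ≤ k
  card : k + 3 < 2 * Fintype.card ι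

section la

/-- Extension by zero. -/
def jo (F ι : Type) [Field F] : (ι → F) →ₗ[F] (Option ι → F) where
  toFun a := fun j => j.elim 0 a
  map_add' a b := by
    funext i
    rcases i with _ | i
    · exact (add_zero (0 : F)).symm
    · rfl
  map_smul' c a := by
    funext i
    rcases i with _ | i
    · exact (mul_zero c).symm
    · rfl

theorem finrank_comap_jo {F ι : Type} [Field F] [Fintype ι] (U : Submodule F (Option ι → F)) :
    Module.finrank F U ≤ Module.finrank F (U.comap (jo F ι)) + 1 := by
  let π : U →ₗ[F] F :=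
    { toFun := fun a => (a : Option ι → F) none
      map_add' := fun a b => rfl
      map_smul' := fun c a => rfl }
  have h1 := π.finrank_range_add_finrank_ker
  have h2 : Module.finrank F (LinearMap.range π) ≤ 1 := by
    refine (Submodule.finrank_le _).trans ?_
    simp
  have h4 : ∀ a : LinearMap.ker π, jo F ι (fun i => ((a : U) : Option ι → F) (some i)) =
      ((a : U) : Option ι → F) := by
    intro a
    funext i
    rcases i with _ | i
    · exact (LinearMap.mem_ker.1 a.2).symm
    · rfl
  let f : LinearMap.ker π →ₗ[F] (U.comap (jo F ι)) :=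
    { toFun := fun a => ⟨fun i => ((a : U) : Option ι → F) (some i), by
        rw [Submodule.mem_comap, h4]
        exact (a : U).2⟩
      map_add' := fun a b => rfl
      map_smul' := fun c a => rfl }
  have hf : Function.Injective f := by
    intro a b hab
    apply Subtype.ext
    apply Subtype.ext
    rw [← h4 a, ← h4 b]
    exact congrArg (jo F ι) (congrArg Subtype.val hab)
  have h3 := LinearMap.finrank_le_finrank_of_injective hf
  omega

end la

section iso

variable {K ι : Type} [Field K] [CharZero K] [Fintype ι] {κ : Option ι → K[X]} {k : ℕ}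
  (h : Fm κ k) {F : Type} [Field F] [Algebra K F]

include h

theorem iso2 (hiso : St_iso) (w₁ w₂ : F) (X₁ X₂ : Option ι → Option ι → F)
    (z₁ : ∀ i j : ι, X₁ (some i) (some j) = 0) (z₂ : ∀ i j : ι, X₂ (some i) (some j) = 0)
    (hw : w₁ ≠ w₂) (U : Submodule F (Option ι → F))
    (hU : ∀ a ∈ U, BF κ a a w₁ X₁ = BF κ a a w₂ X₂) :
    Module.finrank F U < Fintype.card ι := by
  have h1 := finrank_comap_jo U
  have h2 := hiso K F ι (fun i => κ (some i)) k h.lin h.kdeg w₁ w₂ hw (U.comap (jo F ι))
    (fun a ha => by
      have h3 := hU _ (Submodule.mem_comap.1 ha)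
      have h4 : (jo F ι) a = fun j => j.elim 0 a := rfl
      rwa [h4, BF_some κ a w₁ X₁ z₁, BF_some κ a w₂ X₂ z₂] at h3)
  have h3 := h.card
  omega

end iso

section rel

variable {K ι : Type} [Field K] [CharZero K] [Fintype ι] {κ : Option ι → K[X]} {k : ℕ}
  (h : Fm κ k)
variable {F N : Type} [Field F] [Field N] [Algebra F N] [Algebra K F] [Algebra K N]
  [IsScalarTower K F N]

theorem rel_all (hgen : St_gen) (v : Option ι → N)
    (halg : Algebra.IsAlgebraic (IntermediateField.adjoin F (Set.range v)) N)
    (U : Submodule F (Option ι → F))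
    (hvU : v ∈ Submodule.span N ((fun (c : Option ι → F) (i : Option ι) =>
      algebraMap F N (c i)) '' (U : Set (Option ι → F))))
    (htr : (Module.finrank F U : Cardinal) ≤ Algebra.trdeg F N) (w₁ w₂ : F)
    (X₁ X₂ : Option ι → Option ι → F)
    (hrel : BF κ v v (algebraMap F N w₁) (fun i j => algebraMap F N (X₁ i j)) =
      BF κ v v (algebraMap F N w₂) (fun i j => algebraMap F N (X₂ i j)))
    (a : Option ι → F) (ha : a ∈ U) :
    BF κ a a w₁ X₁ = BF κ a a w₂ X₂ := by
  let f : MvPolynomial (Option ι) F :=
    BF κ MvPolynomial.X MvPolynomial.X (MvPolynomial.C w₁) (fun i j => MvPolynomial.C (X₁ i j)) -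
    BF κ MvPolynomial.X MvPolynomial.X (MvPolynomial.C w₂) (fun i j => MvPolynomial.C (X₂ i j))
  have h1 : ∀ (w : F) (X : Option ι → Option ι → F), MvPolynomial.aeval v
      (BF κ MvPolynomial.X MvPolynomial.X (MvPolynomial.C w) (fun i j => MvPolynomial.C (X i j))) =
      BF κ v v (algebraMap F N w) (fun i j => algebraMap F N (X i j)) := by
    intro w X
    have h2 := BF_map κ ((MvPolynomial.aeval v : MvPolynomial (Option ι) F →ₐ[F]
      N).restrictScalars K) MvPolynomial.X MvPolynomial.X (MvPolynomial.C w)
      (fun i j => MvPolynomial.C (X i j))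
    simp only [AlgHom.restrictScalars_apply, MvPolynomial.aeval_X, MvPolynomial.algHom_C] at h2
    exact h2
  have h1' : ∀ (w : F) (X : Option ι → Option ι → F), MvPolynomial.eval a
      (BF κ MvPolynomial.X MvPolynomial.X (MvPolynomial.C w) (fun i j => MvPolynomial.C (X i j))) =
      BF κ a a w X := by
    intro w X
    have h2 := BF_map κ ((MvPolynomial.aeval a : MvPolynomial (Option ι) F →ₐ[F]
      F).restrictScalars K) MvPolynomial.X MvPolynomial.X (MvPolynomial.C w)
      (fun i j => MvPolynomial.C (X i j))
    simp only [AlgHom.restrictScalars_apply, MvPolynomial.aeval_X, MvPolynomial.algHom_C,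
      Algebra.algebraMap_self, RingHom.id_apply] at h2
    rw [← h2]
    exact (RingHom.congr_fun (MvPolynomial.coe_aeval_eq_eval a) _).symm
  have h3 := hgen F N (Option ι) v halg U hvU htr f (by
    rw [map_sub, h1, h1, hrel, sub_self]) a ha
  rw [map_sub, h1', h1', sub_eq_zero] at h3
  exact h3

include h

theorem rel_contra (hgen : St_gen) (hiso : St_iso) (v : Option ι → N)
    (halg : Algebra.IsAlgebraic (IntermediateField.adjoin F (Set.range v)) N)
    (U : Submodule F (Option ι → F))
    (hvU : v ∈ Submodule.span N ((fun (c : Option ι → F) (i : Option ι) =>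
      algebraMap F N (c i)) '' (U : Set (Option ι → F))))
    (htr : (Module.finrank F U : Cardinal) ≤ Algebra.trdeg F N)
    (hU : Fintype.card ι ≤ Module.finrank F U) (w₁ w₂ : F)
    (X₁ X₂ : Option ι → Option ι → F)
    (z₁ : ∀ i j : ι, X₁ (some i) (some j) = 0) (z₂ : ∀ i j : ι, X₂ (some i) (some j) = 0)
    (hw : w₁ ≠ w₂)
    (hrel : BF κ v v (algebraMap F N w₁) (fun i j => algebraMap F N (X₁ i j)) =
      BF κ v v (algebraMap F N w₂) (fun i j => algebraMap F N (X₂ i j))) : False := by
  have h1 := iso2 h hiso w₁ w₂ X₁ X₂ z₁ z₂ hw U (fun a ha =>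
    rel_all hgen v halg U hvU htr w₁ w₂ X₁ X₂ hrel a ha)
  omega

end rel

end Pool.Agent.N70.AW
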