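import Mathlib
import Pool.Agent.N70.AW.Rl

set_option autoImplicit false
set_option linter.unusedSectionVars false
set_option linter.unusedSimpArgs false

namespace Pool.Agent.N70.AW

open Polynomial Pool.Agent.Y793

/-- The index set of the parameters. -/
abbrev Ix (ι : Type) : Type := Option ι ⊕ Unit

/-- A point on which the function takes the value `T`. -/
structure Pt {K ι : Type} [Field K] [Fintype ι] (κ : Option ι → K[X]) (k₀ : Type) {N : Type}
    [Field k₀] [Field N] [Algebra K N] [Algebra k₀ N] (c : Option ι → N) (T w : N)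
    (X : Option ι → Option ι → N) : Prop where
  hT : BF κ c c w X = T
  sym : ∀ i j, X i j = X j i
  zero : ∀ i j : ι, X (some i) (some j) = 0
  mem : ∀ i j, X i j ∈ cl k₀ (Set.range fun _ : Unit => w)

section bb

variable {K J : Type} [Field K] [CharZero K] [Fintype J] (κ : J → K[X])
variable {E : Type} [CommRing E] [Algebra K E]

/-- The difference of the bilinear forms at two points. -/
noncomputable def BB (w₁ : E) (X₁ : J → J → E) (w₂ : E) (X₂ : J → J → E) (a b : J → E) : E :=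
  BF κ a b w₁ X₁ - BF κ a b w₂ X₂

variable (w₁ : E) (X₁ : J → J → E) (w₂ : E) (X₂ : J → J → E)
  (s₁ : ∀ i j, X₁ i j = X₁ j i) (s₂ : ∀ i j, X₂ i j = X₂ j i)

include s₁ s₂ in
theorem BB_comm (a b : J → E) :
    BB κ w₁ X₁ w₂ X₂ a b = BB κ w₁ X₁ w₂ X₂ b a := by
  unfold BB
  rw [BF_comm κ a b w₁ X₁ s₁, BF_comm κ a b w₂ X₂ s₂]

theorem BB_add (a b c : J → E) :
    BB κ w₁ X₁ w₂ X₂ a (b + c) =
      BB κ w₁ X₁ w₂ X₂ a b + BB κ w₁ X₁ w₂ X₂ a c := by
  unfold BB
  rw [BF_add, BF_add]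
  ring

theorem BB_smul (a : J → E) (t : E) (b : J → E) :
    BB κ w₁ X₁ w₂ X₂ a (t • b) = t * BB κ w₁ X₁ w₂ X₂ a b := by
  unfold BB
  rw [BF_smul, BF_smul]
  ring

theorem BB_map {E' : Type} [CommRing E'] [Algebra K E'] (φ : E →ₐ[K] E')
    (a b : J → E) :
    φ (BB κ w₁ X₁ w₂ X₂ a b) =
      BB κ (φ w₁) (fun i j => φ (X₁ i j)) (φ w₂) (fun i j => φ (X₂ i j)) (fun i => φ (a i))
        (fun i => φ (b i)) := by
  unfold BB
  rw [map_sub, BF_map, BF_map]

include s₁ s₂ in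
theorem BB_tilde (e v : J → E) (t : E)
    (he : BB κ w₁ X₁ w₂ X₂ e e = 0) (hv : BB κ w₁ X₁ w₂ X₂ v v = 0) :
    BB κ w₁ X₁ w₂ X₂ e (v + (-t) • e) = BB κ w₁ X₁ w₂ X₂ e v ∧
    BB κ w₁ X₁ w₂ X₂ (v + (-t) • e) (v + (-t) • e) =
      -2 * t * BB κ w₁ X₁ w₂ X₂ e v := by
  have h1 : BB κ w₁ X₁ w₂ X₂ e (v + (-t) • e) = BB κ w₁ X₁ w₂ X₂ e v := by
    rw [BB_add, BB_smul, he, mul_zero, add_zero]
  refine ⟨h1, ?_⟩
  rw [BB_add, BB_smul, BB_comm κ w₁ X₁ w₂ X₂ s₁ s₂ (v + (-t) • e) e, h1,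
    BB_comm κ w₁ X₁ w₂ X₂ s₁ s₂ (v + (-t) • e) v, BB_add, BB_smul, hv,
    BB_comm κ w₁ X₁ w₂ X₂ s₁ s₂ v e]
  ring

include s₁ s₂ in
theorem BB_polar (h : ∀ a, BB κ w₁ X₁ w₂ X₂ a a = 0) (a b : J → E) :
    2 * BB κ w₁ X₁ w₂ X₂ a b = 0 := by
  have h1 := h (a + b)
  rw [BB_add, BB_comm κ w₁ X₁ w₂ X₂ s₁ s₂ (a + b) a, BB_comm κ w₁ X₁ w₂ X₂ s₁ s₂ (a + b) b,
    BB_add, BB_add, h a, h b, BB_comm κ w₁ X₁ w₂ X₂ s₁ s₂ b a] at h1
  linear_combination h1

end bb

section sa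

variable {K ι : Type} [Field K] [CharZero K] [Fintype ι] {κ : Option ι → K[X]} {k : ℕ}
variable {k₀ N : Type} [Field k₀] [Field N] [Algebra K k₀] [Algebra K N] [Algebra k₀ N]
  [IsScalarTower K k₀ N]

theorem BF_mem (F : IntermediateField k₀ N) (a b : Option ι → N) (ha : ∀ i, a i ∈ F)
    (hb : ∀ i, b i ∈ F) {w : N} (hw : w ∈ F) (X : Option ι → Option ι → N)
    (hX : ∀ i j, X i j ∈ F) : BF κ a b w X ∈ F := by
  have h1 := BF_map κ (F.val.restrictScalars K) (fun i => (⟨a i, ha i⟩ : F))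
    (fun i => (⟨b i, hb i⟩ : F)) ⟨w, hw⟩ (fun i j => (⟨X i j, hX i j⟩ : F))
  change _ = BF κ a b w X at h1
  rw [← h1]
  exact (BF κ (fun i => (⟨a i, ha i⟩ : F)) (fun i => (⟨b i, hb i⟩ : F)) ⟨w, hw⟩
    (fun i j => (⟨X i j, hX i j⟩ : F))).2

theorem Pt.X_mem {c : Option ι → N} {T w : N} {X : Option ι → Option ι → N}
    (h : Pt κ k₀ c T w X) (F : IntermediateField k₀ N) (hF : ∀ x, IsAlgebraic F x → x ∈ F)
    (hw : w ∈ F) (i j : Option ι) : X i j ∈ F := by
  refine cl_le ?_ hF (h.mem i j)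
  rintro _ ⟨-, rfl⟩
  exact hw

variable (η : Ix ι → N) (hη : IsTranscendenceBasis k₀ η)

include hη

/-- `N` is algebraic over the field generated by the parameters over a field containing
a point. -/
theorem alg_over (F : IntermediateField k₀ N) {w : N} {X : Option ι → Option ι → N} (hw : w ∈ F)
    (hX : ∀ i j, X i j ∈ F)
    (hp : Pt κ k₀ (fun i => η (Sum.inl i)) (η (Sum.inr ())) w X) :
    Algebra.IsAlgebraic (IntermediateField.adjoin F (Set.range fun i => η (Sum.inl i))) N := by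
  refine ⟨fun x => mem_cl.1 ?_⟩
  have hF : ∀ x ∈ F, x ∈ cl F (Set.range fun i => η (Sum.inl i)) := fun x hx =>
    (cl F (Set.range fun i => η (Sum.inl i))).algebraMap_mem (⟨x, hx⟩ : F)
  have hv : ∀ i, η (Sum.inl i) ∈ cl F (Set.range fun i => η (Sum.inl i)) :=
    fun i => sub_cl _ ⟨i, rfl⟩
  have hk : ∀ z : k₀, algebraMap k₀ N z ∈ cl F (Set.range fun i => η (Sum.inl i)) := fun z =>
    hF _ (F.algebraMap_mem z)
  refine basis_top η hη (cl F (Set.range fun i => η (Sum.inl i))) hk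
    (fun j => ?_) (fun z hz => cl_closed hz) x
  rcases j with j | j
  · exact hv j
  · have h1 := BF_mem (κ := κ)
      ((cl F (Set.range fun i => η (Sum.inl i))).toSubfield.toIntermediateField hk)
      (fun i => η (Sum.inl i)) (fun i => η (Sum.inl i)) hv hv (hF w hw) X
      (fun i j => hF _ (hX i j))
    rw [hp.hT] at h1
    exact h1

theorem card_Ix : Nat.card (Ix ι) = Fintype.card ι + 2 := by
  simp [Nat.card_eq_fintype_card]

/-- The coordinate of a point is not algebraic over the parameters. -/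
theorem w_not_mem {w : N} {X : Option ι → Option ι → N}
    (hp : Pt κ k₀ (fun i => η (Sum.inl i)) (η (Sum.inr ())) w X) :
    w ∉ cl k₀ (Set.range fun i => η (Sum.inl i)) := by
  intro hw
  have hcl : ∀ x, IsAlgebraic (cl k₀ (Set.range fun i => η (Sum.inl i))) x →
      x ∈ cl k₀ (Set.range fun i => η (Sum.inl i)) := fun x hx => cl_closed hx
  have hX := hp.X_mem _ hcl hw
  have hv : ∀ i, η (Sum.inl i) ∈ cl k₀ (Set.range fun i => η (Sum.inl i)) :=
    fun i => sub_cl _ ⟨i, rfl⟩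
  have h1 := le_trdeg_cl η hη (fun i => η (Sum.inl i)) 1 (by
    rw [card_Ix η hη]
    simp [Nat.card_eq_fintype_card]
    omega)
  have h2 : Algebra.IsAlgebraic (cl k₀ (Set.range fun i => η (Sum.inl i))) N := by
    refine ⟨fun x => ?_⟩
    have h3 : x ∈ cl k₀ (Set.range fun i => η (Sum.inl i)) := by
      refine basis_top η hη _ (fun z => IntermediateField.algebraMap_mem _ z) (fun j => ?_) hcl x
      rcases j with j | j
      · exact hv j
      · have h1 := BF_mem (κ := κ) _ (fun i => η (Sum.inl i)) (fun i => η (Sum.inl i)) hv hv hw X hX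
        rw [hp.hT] at h1
        exact h1
    exact isAlgebraic_algebraMap (⟨x, h3⟩ : cl k₀ (Set.range fun i => η (Sum.inl i)))
  have h4 : Algebra.trdeg (cl k₀ (Set.range fun i => η (Sum.inl i))) N = 0 :=
    _root_.trdeg_eq_zero
  rw [h4] at h1
  simp at h1

end sa

section sb

variable {K ι : Type} [Field K] [CharZero K] [Fintype ι] {κ : Option ι → K[X]} {k : ℕ}

theorem Fm.pos (h : Fm κ k) : 0 < Fintype.card ι := by
  have := h.card
  omega

variable {k₀ N : Type} [Field k₀] [Field N] [Algebra K k₀] [Algebra K N] [Algebra k₀ N]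
  [IsScalarTower K k₀ N]

instance towI (F : IntermediateField k₀ N) : IsScalarTower K F N :=
  IsScalarTower.of_algebraMap_eq fun _ => rfl

variable (η : Ix ι → N) (hη : IsTranscendenceBasis k₀ η) (h : Fm κ k)
include hη h

theorem sep (hgen : St_gen) (hiso : St_iso) {w₁ w₂ : N} {X₁ X₂ : Option ι → Option ι → N}
    (p₁ : Pt κ k₀ (fun i => η (Sum.inl i)) (η (Sum.inr ())) w₁ X₁)
    (p₂ : Pt κ k₀ (fun i => η (Sum.inl i)) (η (Sum.inr ())) w₂ X₂)
    (hw : w₂ ∈ cl k₀ (Set.range fun _ : Unit => w₁)) :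
    w₂ = w₁ ∧ ∀ i, X₁ none (some i) = X₂ none (some i) := by
  classical
  set F := cl k₀ (Set.range fun _ : Unit => w₁) with hF
  have hcl : ∀ x, IsAlgebraic F x → x ∈ F := fun x hx => cl_closed hx
  have hw₁ : w₁ ∈ F := sub_cl _ ⟨(), rfl⟩
  have hX₁ := p₁.X_mem F hcl hw₁
  have hX₂ := p₂.X_mem F hcl hw
  have halg := alg_over η hη F hw₁ hX₁ p₁
  have htr : (Module.finrank F (⊤ : Submodule F (Option ι → F)) : Cardinal) ≤
      Algebra.trdeg F N := by
    rw [finrank_top, Module.finrank_fintype_fun_eq_card, Fintype.card_option]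
    refine le_trdeg_cl η hη (fun _ : Unit => w₁) _ ?_
    rw [card_Ix η hη]
    simp
  let Y₁ : Option ι → Option ι → F := fun i j => ⟨X₁ i j, hX₁ i j⟩
  let Y₂ : Option ι → Option ι → F := fun i j => ⟨X₂ i j, hX₂ i j⟩
  have hrel : BF κ (fun i => η (Sum.inl i)) (fun i => η (Sum.inl i)) (algebraMap F N ⟨w₁, hw₁⟩)
      (fun i j => algebraMap F N (Y₁ i j)) =
      BF κ (fun i => η (Sum.inl i)) (fun i => η (Sum.inl i)) (algebraMap F N ⟨w₂, hw⟩)
      (fun i j => algebraMap F N (Y₂ i j)) :=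
    p₁.hT.trans p₂.hT.symm
  have hz₁ : ∀ i j : ι, Y₁ (some i) (some j) = 0 := fun i j => Subtype.ext (p₁.zero i j)
  have hz₂ : ∀ i j : ι, Y₂ (some i) (some j) = 0 := fun i j => Subtype.ext (p₂.zero i j)
  have hs₁ : ∀ i j, Y₁ i j = Y₁ j i := fun i j => Subtype.ext (p₁.sym i j)
  have hs₂ : ∀ i j, Y₂ i j = Y₂ j i := fun i j => Subtype.ext (p₂.sym i j)
  have hall := rel_all hgen (fun i => η (Sum.inl i)) halg ⊤ (mem_span_top _) htr _ _ _ _ hrel
  have hww : (⟨w₁, hw₁⟩ : F) = ⟨w₂, hw⟩ := by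
    by_contra hne
    refine rel_contra h hgen hiso (fun i => η (Sum.inl i)) halg ⊤ (mem_span_top _) htr ?_ _ _
      Y₁ Y₂ hz₁ hz₂ hne hrel
    rw [finrank_top, Module.finrank_fintype_fun_eq_card, Fintype.card_option]
    omega
  refine ⟨(congrArg Subtype.val hww).symm, fun i => ?_⟩
  have h1 := BB_polar κ (⟨w₁, hw₁⟩ : F) Y₁ ⟨w₂, hw⟩ Y₂ hs₁ hs₂ (fun a => by
    unfold BB
    rw [hall a trivial, sub_self]) (Pi.single none 1) (Pi.single (some i) 1)
  have h5 : (2 : F) ≠ 0 := by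
    have : CharZero F := charZero_of_injective_algebraMap (algebraMap K F).injective
    norm_num
  have h2 := (mul_eq_zero.1 h1).resolve_left h5
  unfold BB at h2
  rw [BF_none_some, BF_none_some, ← hww] at h2
  have h3 : Y₁ none (some i) = Y₂ none (some i) := by linear_combination h2
  exact congrArg Subtype.val h3

end sb

end Pool.Agent.N70.AW
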