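import Mathlib
import Pool.Agent.N70.AW.Stm
import Pool.Agent.N70.AW.Sb
import Pool.Agent.Y793.Se

set_option autoImplicit false
set_option linter.unusedSectionVars false
set_option linter.unusedSimpArgs false

namespace Pool.Agent.N70.AW

open Polynomial Pool.Agent.H391R2 Pool.Agent.H391R2.T4
open Pool.Agent.Y793 (cl sub_cl cl_closed cl_le exists_equiv_basis aeval_mem' St_gen St_iso St_ext tz)

/-- The variable, as an element of `Z`. -/
noncomputable def tv (K Z : Type) [Field K] [Field Z] [Algebra (RatFunc K) Z] : Z :=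
  pz Z (X : K[X])

section gal

variable {K Z N : Type} [Field K] [Field Z] [Algebra (RatFunc K) Z] [Algebra K Z]
  [IsScalarTower K (RatFunc K) Z] [Field N] [Algebra K N]

theorem pz_C (a : K) : pz Z (C a) = algebraMap K Z a := by
  unfold pz
  rw [RatFunc.algebraMap_C, ← RatFunc.algebraMap_eq_C, ← IsScalarTower.algebraMap_apply]

theorem poly_ev (φ : Z →ₐ[K] N) (p : K[X]) : φ (pz Z p) = aeval (φ (tv K Z)) p := by
  induction p using Polynomial.induction_on' with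
  | add p q hp hq =>
    have h1 : pz Z (p + q) = pz Z p + pz Z q := by simp [pz]
    rw [h1, map_add, hp, hq, map_add]
  | monomial n a =>
    have h1 : pz Z (monomial n a) = algebraMap K Z a * tv K Z ^ n := by
      rw [← pz_C]
      simp only [tv, pz, ← C_mul_X_pow_eq_monomial, map_mul, map_pow]
    rw [h1, map_mul, map_pow, φ.commutes, aeval_monomial]

/-- The image of an embedding is algebraic over the image of the variable. -/
theorem emb_mem [CharZero K] {k₀ : Type} [Field k₀] [Algebra K k₀] [Algebra k₀ N]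
    [IsScalarTower K k₀ N] [FiniteDimensional (RatFunc K) Z]
    (φ : Z →ₐ[K] N) (L : IntermediateField k₀ N)
    (hL : ∀ x, IsAlgebraic L x → x ∈ L) (hwL : φ (tv K Z) ∈ L) (z : Z) : φ z ∈ L := by
  have hq : ∀ q : RatFunc K, φ (algebraMap (RatFunc K) Z q) ∈ L := by
    intro q
    rw [← RatFunc.num_div_denom q, map_div₀, map_div₀]
    change φ (pz Z _) / φ (pz Z _) ∈ L
    rw [poly_ev φ, poly_ev φ]
    exact div_mem (aeval_mem' L hwL _) (aeval_mem' L hwL _)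
  let ψ : RatFunc K →+* L := ((φ : Z →+* N).comp (algebraMap (RatFunc K) Z)).codRestrict L hq
  apply hL
  have hz : IsAlgebraic (RatFunc K) z := Algebra.IsAlgebraic.isAlgebraic z
  obtain ⟨p, hp, hp0⟩ := hz
  refine ⟨p.map ψ, (Polynomial.map_ne_zero_iff ψ.injective).2 hp, ?_⟩
  rw [aeval_def, eval₂_map]
  have h2 : (algebraMap L N).comp ψ = (φ : Z →+* N).comp (algebraMap (RatFunc K) Z) := by
    apply RingHom.ext
    intro x
    rfl
  rw [h2]
  have h3 := Polynomial.hom_eval₂ p (algebraMap (RatFunc K) Z) (φ : Z →+* N) z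
  rw [← aeval_def, hp0, map_zero] at h3
  exact h3.symm

/-- Two embeddings which agree on the variable differ by an element of the Galois group. -/
theorem comp_gal [FiniteDimensional (RatFunc K) Z] [IsGalois (RatFunc K) Z]
    (f f' : Z →ₐ[K] N) (hff : f (tv K Z) = f' (tv K Z)) :
    ∃ γ : Z ≃ₐ[RatFunc K] Z, ∀ z, f' z = f (γ z) := by
  have hq : ∀ q : RatFunc K, f' (algebraMap (RatFunc K) Z q) = f (algebraMap (RatFunc K) Z q) := by
    intro q
    rw [← RatFunc.num_div_denom q, map_div₀, map_div₀, map_div₀]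
    change f' (pz Z _) / f' (pz Z _) = f (pz Z _) / f (pz Z _)
    rw [poly_ev f, poly_ev f, poly_ev f', poly_ev f', hff]
  let _ : Algebra Z N := (f : Z →+* N).toAlgebra
  let _ : Algebra (RatFunc K) N := ((f : Z →+* N).comp (algebraMap (RatFunc K) Z)).toAlgebra
  have t1 : IsScalarTower (RatFunc K) Z N := .of_algebraMap_eq fun _ => rfl
  let f'' : Z →ₐ[RatFunc K] N := { (f' : Z →+* N) with commutes' := fun q => hq q }
  refine ⟨f''.restrictNormal' Z, fun z => ?_⟩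
  have h1 := f''.restrictNormal_commutes Z z
  exact h1.symm

end gal

section pair

variable {K ι : Type} [Field K] [CharZero K] [Fintype ι] {κ : Option ι → K[X]} {k : ℕ}
variable {k₀ N Z : Type} [Field k₀] [Field N] [Algebra K k₀] [Algebra K N] [Algebra k₀ N]
  [IsScalarTower K k₀ N] [IsAlgClosed N] (h : Fm κ k)
  [Field Z] [Algebra (RatFunc K) Z] [Algebra K Z] [IsScalarTower K (RatFunc K) Z]
  [FiniteDimensional (RatFunc K) Z] [IsGalois (RatFunc K) Z]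

/-- A labelled point. -/
abbrev LPt (κ : Option ι → K[X]) (k₀ : Type) [Field k₀] [Algebra k₀ N]
    (x : Option ι → Option ι → Z) (c : Option ι → N) (T : N) (φ : Z →ₐ[K] N) : Prop :=
  Pt κ k₀ c T (φ (tv K Z)) (fun i j => φ (x i j))

include h

theorem pair_trans (hgen : St_gen) (hiso : St_iso) (hext : St_ext) (η : Ix ι → N)
    (hη : IsTranscendenceBasis k₀ η)
    (hreg : ∀ y : Z, IsAlgebraic K y → y ∈ Set.range (algebraMap K Z)) (t₀ : K)
    (hstar : ∀ (z : Z) (a : K), a ≠ 0 →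
      z ^ 2 ≠ algebraMap (RatFunc K) Z (RatFunc.C a * (RatFunc.X - RatFunc.C t₀)))
    (x : Option ι → Option ι → Z)
    {φ₁ φ₂ φ₁' φ₂' : Z →ₐ[K] N}
    (l₁ : LPt κ k₀ x (fun i => η (Sum.inl i)) (η (Sum.inr ())) φ₁)
    (l₂ : LPt κ k₀ x (fun i => η (Sum.inl i)) (η (Sum.inr ())) φ₂)
    (l₁' : LPt κ k₀ x (fun i => η (Sum.inl i)) (η (Sum.inr ())) φ₁')
    (l₂' : LPt κ k₀ x (fun i => η (Sum.inl i)) (η (Sum.inr ())) φ₂')
    (hne : φ₂ (tv K Z) ≠ φ₁ (tv K Z)) (hne' : φ₂' (tv K Z) ≠ φ₁' (tv K Z)) :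
    ∃ σ : N ≃ₐ[k₀] N, (∀ i, σ (η i) = η i) ∧
      (∀ z, σ (φ₁ z) = φ₁' z) ∧ ∀ z, σ (φ₂ z) = φ₂' z := by
  classical
  have hcN : CharZero N := charZero_of_injective_algebraMap (algebraMap K N).injective
  -- the first step
  obtain ⟨ρ, hρ₁, hρ₂⟩ : ∃ ρ : N ≃ₐ[k₀] N, ρ (φ₁ (tv K Z)) = φ₁' (tv K Z) ∧
      ρ (φ₂ (tv K Z)) = φ₂' (tv K Z) := by
    obtain ⟨e, i₀, he1, hee, hev⟩ := two_pts h hgen hiso η hη l₁ l₂ hne
    obtain ⟨e', i₀', he1', hee', hev'⟩ := two_pts h hgen hiso η hη l₁' l₂' hne'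
    have hb := (basis₂ η hη l₁ l₂ _ rfl e i₀ he1 hee (hev η hη l₁ l₂)).2
    have hb' := (basis₂ η hη l₁' l₂' _ rfl e' i₀' he1' hee'
      (hev' η hη l₁' l₂')).2
    have hcard : Nat.card {i // i ≠ i₀} = Nat.card {i // i ≠ i₀'} := by
      rw [card_sub η hη, card_sub η hη]
    obtain ⟨ε⟩ : Nonempty ({i // i ≠ i₀} ≃ {i // i ≠ i₀'}) := Finite.card_eq.1 hcard
    have hb'' := (isTranscendenceBasis_equiv ((Equiv.refl (Fin 2)).sumCongr ε)).2 hb'
    obtain ⟨ρ, hρ⟩ := exists_equiv_basis _ _ hb hb''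
    exact ⟨ρ, hρ (Sum.inl 0), hρ (Sum.inl 1)⟩
  -- the correction of one embedding
  have hcorr : ∀ (ψ ψ' : Z →ₐ[K] N) (v : N), ψ (tv K Z) = ψ' (tv K Z) →
      ψ' (tv K Z) ∉ cl k₀ (Set.range fun _ : Unit => v) →
      ∃ τ : N ≃ₐ[k₀] N, (∀ z, τ (ψ z) = ψ' z) ∧
        ∀ x ∈ cl k₀ (Set.range fun _ : Unit => v), τ x = x := by
    intro ψ ψ' v hψ hwv
    set L := cl k₀ (Set.range fun _ : Unit => v) with hL
    have hKL : ∀ a : K, algebraMap K N a ∈ L.toSubfield := by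
      intro a
      rw [IsScalarTower.algebraMap_apply K k₀ N]
      exact L.algebraMap_mem _
    obtain ⟨γ, hγ⟩ := comp_gal ψ' ψ hψ.symm
    obtain ⟨w, hw⟩ := IsAlgClosed.exists_pow_nat_eq (ψ' (tz K Z t₀)) (n := 2) (by norm_num)
    have htr : Transcendental (L.toSubfield.toIntermediateField hKL) w := by
      intro h1
      have h2 : w ∈ L := cl_closed h1
      refine hwv ?_
      have h3 : tv K Z = tz K Z t₀ + algebraMap K Z t₀ := by
        unfold tv pz tz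
        rw [RatFunc.algebraMap_X, map_sub, ← RatFunc.algebraMap_eq_C,
          ← IsScalarTower.algebraMap_apply, sub_add_cancel]
      rw [h3, map_add, ← hw, ψ'.commutes]
      exact add_mem (pow_mem h2 2) (hKL t₀)
    obtain ⟨τ, hτ1, hτ2⟩ := hext K Z N hreg t₀ hstar (L.toSubfield.toIntermediateField hKL) ψ' w
      hw htr γ.symm 1
    have hfix : ∀ x ∈ L, τ x = x := fun x hx =>
      τ.commutes (⟨x, hx⟩ : L.toSubfield.toIntermediateField hKL)
    refine ⟨AlgEquiv.ofRingEquiv (f := τ.toRingEquiv) fun x => hfix _ (L.algebraMap_mem x),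
      fun z => ?_, hfix⟩
    change τ (ψ z) = ψ' z
    rw [hγ, hτ1, AlgEquiv.symm_apply_apply]
  have hn1 : φ₁' (tv K Z) ∉ cl k₀ (Set.range fun _ : Unit => φ₂' (tv K Z)) := fun h1 =>
    hne' (sep η hη h hgen hiso l₂' l₁' h1).1.symm
  have hn2 : φ₂' (tv K Z) ∉ cl k₀ (Set.range fun _ : Unit => φ₁' (tv K Z)) := fun h1 =>
    hne' (sep η hη h hgen hiso l₁' l₂' h1).1
  let ρK : N →ₐ[K] N := (ρ : N →ₐ[k₀] N).restrictScalars K
  obtain ⟨τ₁, a1, a3⟩ := hcorr (ρK.comp φ₁) φ₁' (φ₂' (tv K Z)) hρ₁ hn1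
  obtain ⟨τ₂, b1, b3⟩ := hcorr (ρK.comp φ₂) φ₂' (φ₁' (tv K Z)) hρ₂ hn2
  let σ₀ : N ≃ₐ[k₀] N := (ρ.trans τ₁).trans τ₂
  have hσ₀ : ∀ x, σ₀ x = τ₂ (τ₁ (ρ x)) := fun x => rfl
  have c1 : ∀ z, σ₀ (φ₁ z) = φ₁' z := by
    intro z
    rw [hσ₀]
    have h1 : τ₁ (ρ (φ₁ z)) = φ₁' z := a1 z
    rw [h1]
    exact b3 _ (emb_mem φ₁' _ (fun x hx => cl_closed hx)
      (sub_cl (Set.range fun _ : Unit => φ₁' (tv K Z)) ⟨(), rfl⟩) z)
  have c2 : ∀ z, σ₀ (φ₂ z) = φ₂' z := by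
    intro z
    rw [hσ₀]
    have h1 : τ₁ (ρ (φ₂ z)) = ρ (φ₂ z) :=
      a3 _ (emb_mem (ρK.comp φ₂) _ (fun x hx => cl_closed hx)
        (by
          change ρ (φ₂ (tv K Z)) ∈ _
          rw [hρ₂]
          exact sub_cl (Set.range fun _ : Unit => φ₂' (tv K Z)) ⟨(), rfl⟩) z)
    rw [h1]
    exact b1 z
  -- the second step
  have hη' : IsTranscendenceBasis k₀ (fun i => σ₀.symm (η i)) :=
    AlgEquiv.isTranscendenceBasis σ₀.symm hη
  have hpt : ∀ (φ φ' : Z →ₐ[K] N),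
      LPt κ k₀ x (fun i => η (Sum.inl i)) (η (Sum.inr ())) φ →
      LPt κ k₀ x (fun i => η (Sum.inl i)) (η (Sum.inr ())) φ' →
      (∀ z, σ₀ (φ z) = φ' z) →
      LPt κ k₀ x (fun i => σ₀.symm (η (Sum.inl i))) (σ₀.symm (η (Sum.inr ()))) φ := by
    intro φ φ' l l' h1
    refine ⟨?_, l.sym, l.zero, l.mem⟩
    have h3 := BF_map κ ((σ₀.symm : N →ₐ[k₀] N).restrictScalars K)
      (fun i => η (Sum.inl i)) (fun i => η (Sum.inl i)) (φ' (tv K Z)) (fun i j => φ' (x i j))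
    change σ₀.symm _ = BF κ (fun i => σ₀.symm (η (Sum.inl i))) (fun i => σ₀.symm (η (Sum.inl i)))
      (σ₀.symm (φ' (tv K Z))) (fun i j => σ₀.symm (φ' (x i j))) at h3
    have h4 : ∀ z, σ₀.symm (φ' z) = φ z := fun z => by
      rw [← h1, AlgEquiv.symm_apply_apply]
    rw [l'.hT] at h3
    simp only [h4] at h3
    exact h3.symm
  obtain ⟨τ, hτ⟩ := move h hgen hiso η (fun i => σ₀.symm (η i)) hη hη' l₁ l₂
    (hpt φ₁ φ₁' l₁ l₁' c1) (hpt φ₂ φ₂' l₂ l₂' c2) hne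
  have hfix : ∀ x ∈ cl k₀ (Set.range ![φ₁ (tv K Z), φ₂ (tv K Z)]), τ x = x := fun x hx =>
    τ.commutes (⟨x, hx⟩ : cl k₀ (Set.range ![φ₁ (tv K Z), φ₂ (tv K Z)]))
  have m1 : φ₁ (tv K Z) ∈ cl k₀ (Set.range ![φ₁ (tv K Z), φ₂ (tv K Z)]) := sub_cl _ ⟨0, rfl⟩
  have m2 : φ₂ (tv K Z) ∈ cl k₀ (Set.range ![φ₁ (tv K Z), φ₂ (tv K Z)]) := sub_cl _ ⟨1, rfl⟩
  let τ' : N ≃ₐ[k₀] N := AlgEquiv.ofRingEquiv (f := τ.toRingEquiv) fun x =>
    hfix _ ((cl k₀ (Set.range ![φ₁ (tv K Z), φ₂ (tv K Z)])).algebraMap_mem x)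
  have hτ' : ∀ x, τ' x = τ x := fun x => rfl
  refine ⟨τ'.trans σ₀, fun i => ?_, fun z => ?_, fun z => ?_⟩
  · change σ₀ (τ (η i)) = η i
    rw [hτ, AlgEquiv.apply_symm_apply]
  · change σ₀ (τ (φ₁ z)) = φ₁' z
    rw [hfix _ (emb_mem φ₁ _ (fun x hx => cl_closed hx) m1 z), c1]
  · change σ₀ (τ (φ₂ z)) = φ₂' z
    rw [hfix _ (emb_mem φ₂ _ (fun x hx => cl_closed hx) m2 z), c2]

end pair

end Pool.Agent.N70.AW
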