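import Mathlib
import Pool.Agent.N70.AW.Stm

/-!
Further statements (NOT results) of the project `G ≀ A_n` over `K(t)` (helper70).
-/

set_option autoImplicit false

namespace Pool.Agent.N70.AW

open Polynomial Pool.Agent.H391R2 Pool.Agent.H391R2.T4 Pool.Agent.Y793

/-- `D` is the derivation `d/dt` of `Z`, its constants are the elements of `K`. -/
structure IsDt {K Z : Type} [Field K] [Field Z] [Algebra (RatFunc K) Z] [Algebra K Z]
    (D : Derivation K Z Z) : Prop where
  poly : ∀ p : K[X], D (pz Z p) = pz Z (derivative p)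
  comm : ∀ (γ : Z ≃ₐ[RatFunc K] Z) (z : Z), D (γ z) = γ (D z)
  const : ∀ z : Z, D z = 0 → z ∈ Set.range (algebraMap K Z)

/-- DER: existence of the derivation. -/
def St_der : Prop :=
  ∀ (K Z : Type) [Field K] [CharZero K] [Field Z] [Algebra (RatFunc K) Z] [Algebra K Z]
    [IsScalarTower K (RatFunc K) Z] [FiniteDimensional (RatFunc K) Z] [IsGalois (RatFunc K) Z],
    (∀ y : Z, IsAlgebraic K y → y ∈ Set.range (algebraMap K Z)) →
    ∃ D : Derivation K Z Z, IsDt D

/-- CV: existence of a cyclic vector in the fixed field of `P`: an element `g₀` whose stabilizer is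
`P` and whose derivatives `g₀, D g₀, ..., D^(m-1) g₀` are a basis of the fixed field. -/
def St_cv : Prop :=
  ∀ (K Z : Type) [Field K] [CharZero K] [Field Z] [Algebra (RatFunc K) Z] [Algebra K Z]
    [IsScalarTower K (RatFunc K) Z] [FiniteDimensional (RatFunc K) Z] [IsGalois (RatFunc K) Z]
    (D : Derivation K Z Z), IsDt D →
    ∀ (P : Subgroup (Z ≃ₐ[RatFunc K] Z)) (m : ℕ) (g : Fin m → (Z ≃ₐ[RatFunc K] Z)),
      Function.Bijective (fun t => (g t : (Z ≃ₐ[RatFunc K] Z) ⧸ P)) →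
      ∃ g₀ : Z, (∀ γ : Z ≃ₐ[RatFunc K] Z, γ g₀ = g₀ ↔ γ ∈ P) ∧
        (Matrix.of fun t l : Fin m => g t ((D^[(l : ℕ)]) g₀)).det ≠ 0

/-- DEG: the degrees of the values of a linear differential operator. -/
def St_deg : Prop :=
  ∀ (K : Type) [Field K] [CharZero K] (m : ℕ) (p : Fin (m + 1) → K[X]), p (Fin.last m) ≠ 0 →
    ∃ (μ : ℤ) (t₀ : ℕ), ∀ t : ℕ, t₀ ≤ t →
      (∑ l : Fin (m + 1), (-1 : K[X]) ^ (l : ℕ) * derivative^[(l : ℕ)] (p l * X ^ t)) ≠ 0 ∧
      ((∑ l : Fin (m + 1), (-1 : K[X]) ^ (l : ℕ) * derivative^[(l : ℕ)] (p l * X ^ t)).natDegree : ℤ) = t + μ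

/-- DAT: existence of the data, from DER, CV and DEG. -/
def St_datOf : Prop := St_der → St_cv → St_deg → St_dat

end Pool.Agent.N70.AW
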