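import Mathlib
import Pool.Agent.N70.AW.Stm
import Pool.Agent.Y793.Asa
import Pool.Agent.Y241.WR.Grp
import Pool.Agent.H391R2.T4.Red

/-!
The stabilizer of a point in the even part of `G ≀ S_n`.
-/

set_option autoImplicit false
set_option linter.unusedSectionVars false
set_option linter.unusedSimpArgs false

namespace Pool.Agent.N70.AW

open Equiv Pool.Agent.H391R2 Pool.Agent.H391R2.T4
open Pool.Agent.Y793 (AWr)

section st

variable (G : Type) [Group G] {n : ℕ} (i₀ : Fin n)

/-- The stabilizer of a point in the even part. -/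
def Ps : Subgroup (Wr G n) where
  carrier := {x | Perm.sign x.right = 1 ∧ x.right i₀ = i₀}
  one_mem' := ⟨by simp, rfl⟩
  mul_mem' := by
    rintro x y ⟨h1, h2⟩ ⟨h3, h4⟩
    refine ⟨?_, ?_⟩
    · rw [wr_mul_right, map_mul, h1, h3, mul_one]
    · rw [wr_mul_right, Perm.mul_apply, h4, h2]
  inv_mem' := by
    rintro x ⟨h1, h2⟩
    refine ⟨?_, ?_⟩
    · rw [SemidirectProduct.inv_right, map_inv, h1, inv_one]
    · rw [SemidirectProduct.inv_right, Perm.inv_eq_iff_eq, h2]

theorem mem_Ps {x : Wr G n} : x ∈ Ps G i₀ ↔ Perm.sign x.right = 1 ∧ x.right i₀ = i₀ := Iff.rfl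

theorem Ps_perf (hG : commutator G = ⊤) (hn : 6 ≤ n) : commutator (Ps G i₀) = ⊤ := by
  have hle : Ps G i₀ ≤ ⁅Ps G i₀, Ps G i₀⁆ := by
    have hinl : ∀ f : Fin n → G, (SemidirectProduct.inl f : Wr G n) ∈ Ps G i₀ := by
      intro f
      rw [mem_Ps, SemidirectProduct.right_inl, map_one]
      exact ⟨rfl, rfl⟩
    have h1 : ∀ (i : Fin n) (g : G), (SemidirectProduct.inl (Pi.mulSingle i g) : Wr G n) ∈
        ⁅Ps G i₀, Ps G i₀⁆ := by
      intro i g
      have hT : (⊤ : Subgroup G) ≤ ⁅Ps G i₀, Ps G i₀⁆.comap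
          ((SemidirectProduct.inl : (Fin n → G) →* Wr G n).comp
            (MonoidHom.mulSingle (fun _ : Fin n => G) i)) := by
        rw [← hG, commutator_def, Subgroup.commutator_le]
        intro u _ v _
        rw [Subgroup.mem_comap, map_commutatorElement]
        exact Subgroup.commutator_mem_commutator (hinl _) (hinl _)
      exact hT (Subgroup.mem_top g)
    have h2 : ∀ f : Fin n → G, (SemidirectProduct.inl f : Wr G n) ∈ ⁅Ps G i₀, Ps G i₀⁆ := by
      intro f
      have := Subgroup.pi_mem_of_mulSingle_mem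
        (H := ⁅Ps G i₀, Ps G i₀⁆.comap (SemidirectProduct.inl : (Fin n → G) →* Wr G n)) f
        fun i => h1 i (f i)
      exact this
    have h3 : ∀ σ : Perm (Fin n), Perm.sign σ = 1 → σ i₀ = i₀ →
        (SemidirectProduct.inr σ : Wr G n) ∈ ⁅Ps G i₀, Ps G i₀⁆ := by
      intro σ hσ hσ₀
      have hinr : ∀ τ : alternatingGroup {i // i ≠ i₀},
          (SemidirectProduct.inr (Perm.ofSubtype τ.1) : Wr G n) ∈ Ps G i₀ := by
        intro τ
        rw [mem_Ps, SemidirectProduct.right_inr]
        refine ⟨?_, ?_⟩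
        · rw [Perm.sign_ofSubtype]
          exact Perm.mem_alternatingGroup.1 τ.2
        · exact Perm.ofSubtype_apply_of_not_mem _ (by simp)
      have hc : 5 ≤ Nat.card {i : Fin n // i ≠ i₀} := by
        rw [Nat.card_eq_fintype_card, Fintype.card_subtype_compl, Fintype.card_fin,
          Fintype.card_subtype_eq]
        omega
      have hT : (⊤ : Subgroup (alternatingGroup {i : Fin n // i ≠ i₀})) ≤
          ⁅Ps G i₀, Ps G i₀⁆.comap
          (((SemidirectProduct.inr : Perm (Fin n) →* Wr G n).comp Perm.ofSubtype).comp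
            (alternatingGroup {i : Fin n // i ≠ i₀}).subtype) := by
        rw [← commutator_alternatingGroup_eq_top (by simpa using hc),
          commutator_def, Subgroup.commutator_le]
        intro u _ v _
        rw [Subgroup.mem_comap, map_commutatorElement]
        exact Subgroup.commutator_mem_commutator (hinr u) (hinr v)
      have hσ₁ : ∀ x, σ x ≠ i₀ ↔ x ≠ i₀ := by
        intro x
        rw [not_iff_not]
        constructor
        · intro h
          exact σ.injective (h.trans hσ₀.symm)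
        · rintro rfl
          exact hσ₀
      have hσ₂ : Perm.ofSubtype (σ.subtypePerm (p := fun x => x ≠ i₀) hσ₁) = σ :=
        Perm.ofSubtype_subtypePerm _ (fun x hx => by
          rintro rfl
          exact hx hσ₀)
      have h4 := hT (Subgroup.mem_top ⟨σ.subtypePerm (p := fun x => x ≠ i₀) hσ₁,
        Perm.mem_alternatingGroup.2 (by
          rw [← Perm.sign_ofSubtype, hσ₂, hσ])⟩)
      rw [Subgroup.mem_comap] at h4
      change (SemidirectProduct.inr (Perm.ofSubtype (σ.subtypePerm (p := fun x => x ≠ i₀) hσ₁)) :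
        Wr G n) ∈ _ at h4
      rwa [hσ₂] at h4
    intro w hw
    rw [← SemidirectProduct.inl_left_mul_inr_right w]
    exact Subgroup.mul_mem _ (h2 _) (h3 _ hw.1 hw.2)
  rw [eq_top_iff]
  rintro ⟨w, hw⟩ _
  have h1 := hle hw
  rw [← Subgroup.map_subtype_commutator] at h1
  obtain ⟨v, hv, hvw⟩ := h1
  have : v = ⟨w, hw⟩ := Subtype.ext hvw
  rw [← this]
  exact hv

/-- The projection to the coordinate of the fixed point. -/
def PsG : Ps G i₀ →* G where
  toFun x := (x : Wr G n).left i₀
  map_one' := rfl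
  map_mul' x y := by
    have h1 : (x : Wr G n).right⁻¹ i₀ = i₀ := by
      rw [Perm.inv_eq_iff_eq, x.2.2]
    change ((x : Wr G n) * (y : Wr G n)).left i₀ = _
    rw [wr_mul_left, h1]

theorem PsG_surj : Function.Surjective (PsG G i₀) := by
  intro g
  refine ⟨⟨SemidirectProduct.inl (fun _ => g), ?_⟩, rfl⟩
  rw [mem_Ps, SemidirectProduct.right_inl, map_one]
  exact ⟨rfl, rfl⟩

end st

section evenidx

variable (G : Type) [Group G] {n : ℕ}

/-- The permutation of `points × signs`. -/
theorem sign_prod (σ : Perm (Fin n)) (ε : ℤˣ) (hn : Even n) :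
    Perm.sign ((Equiv.prodCongr σ (Equiv.mulLeft ε)) : Perm (Fin n × ℤˣ)) = 1 := by
  have h1 : ((Equiv.prodCongr σ (Equiv.mulLeft ε)) : Perm (Fin n × ℤˣ)) =
      prodCongrLeft (fun _ : ℤˣ => σ) * prodCongrRight (fun _ : Fin n => Equiv.mulLeft ε) := by
    ext ⟨a, b⟩ <;> rfl
  rw [h1, map_mul, Perm.sign_prodCongrLeft, Perm.sign_prodCongrRight, Finset.prod_const,
    Finset.prod_const, Finset.card_univ, Finset.card_univ, Fintype.card_fin]
  obtain ⟨a, rfl⟩ := hn
  have h2 : Fintype.card ℤˣ = 2 := rfl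
  rw [h2, Int.units_sq, one_mul, ← two_mul, pow_mul, Int.units_sq, one_pow]

theorem exists_rep (hn : 3 ≤ n) (i₀ i : Fin n) (ε : ℤˣ) :
    ∃ x : Wr G n, x.right i₀ = i ∧ Perm.sign x.right = ε := by
  obtain ⟨a, ha⟩ : ∃ a : Fin n, a ≠ i₀ := by
    have : Nontrivial (Fin n) := Fin.nontrivial_iff_two_le.2 (by omega)
    exact exists_ne i₀
  obtain ⟨b, hb⟩ : ∃ b : Fin n, b ∉ ({i₀, a} : Finset (Fin n)) := by
    by_contra hcon
    push Not at hcon
    have h1 : (Finset.univ : Finset (Fin n)) ⊆ {i₀, a} := fun x _ => hcon x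
    have h2 := Finset.card_le_card h1
    have h3 : ({i₀, a} : Finset (Fin n)).card ≤ 2 := Finset.card_le_two
    rw [Finset.card_univ, Fintype.card_fin] at h2
    omega
  rw [Finset.mem_insert, Finset.mem_singleton, not_or] at hb
  by_cases h : Perm.sign (swap i₀ i) = ε
  · exact ⟨SemidirectProduct.inr (swap i₀ i), swap_apply_left _ _, h⟩
  · refine ⟨SemidirectProduct.inr (swap i₀ i * swap a b), ?_, ?_⟩
    · rw [SemidirectProduct.right_inr, Perm.mul_apply,
        swap_apply_of_ne_of_ne (Ne.symm ha) (Ne.symm hb.1), swap_apply_left]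
    · rw [SemidirectProduct.right_inr, map_mul, Perm.sign_swap (Ne.symm hb.2)]
      rcases Int.units_eq_one_or (Perm.sign (swap i₀ i)) with h1 | h1 <;>
        rcases Int.units_eq_one_or ε with h2 | h2 <;> simp_all

theorem Ps_even (hn : 3 ≤ n) (he : Even n) (i₀ : Fin n) :
    EvenIndex (Wr G n) (Ps G i₀) (n * 2) := by
  classical
  have hrep : ∀ p : Fin n × ℤˣ, ∃ x : Wr G n, x.right i₀ = p.1 ∧ Perm.sign x.right = p.2 :=
    fun p => exists_rep G hn i₀ p.1 p.2
  choose rep h1 h2 using hrep
  have hcard : Fintype.card (Fin (n * 2)) = Fintype.card (Fin n × ℤˣ) := by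
    rw [Fintype.card_fin, Fintype.card_prod, Fintype.card_fin]
    rfl
  let E : Fin (n * 2) ≃ Fin n × ℤˣ := Fintype.equivOfCardEq hcard
  have key : ∀ x y : Wr G n, ((x : Wr G n ⧸ Ps G i₀) = y) ↔
      (x.right i₀ = y.right i₀ ∧ Perm.sign x.right = Perm.sign y.right) := by
    intro x y
    rw [QuotientGroup.eq, mem_Ps, wr_mul_right, SemidirectProduct.inv_right, map_mul, map_inv,
      Perm.mul_apply, Perm.inv_eq_iff_eq, inv_mul_eq_one]
    tauto
  refine ⟨fun t => rep (E t), ⟨fun t t' htt => ?_, fun a => ?_⟩, fun γ π hπ => ?_⟩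
  · obtain ⟨h3, h4⟩ := (key _ _).1 htt
    rw [h1, h1] at h3
    rw [h2, h2] at h4
    exact E.injective (Prod.ext h3 h4)
  · obtain ⟨a, rfl⟩ := QuotientGroup.mk_surjective a
    refine ⟨E.symm (a.right i₀, Perm.sign a.right), (key _ _).2 ?_⟩
    rw [h1, h2, E.apply_symm_apply]
    exact ⟨rfl, rfl⟩
  · have h3 : ∀ t, E (π t) = (Equiv.prodCongr γ.right (Equiv.mulLeft (Perm.sign γ.right))) (E t) := by
      intro t
      obtain ⟨h4, h5⟩ := (key _ _).1 (hπ t)
      rw [wr_mul_right, Perm.mul_apply, h1, h1] at h4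
      rw [wr_mul_right, map_mul, h2, h2] at h5
      exact Prod.ext h4.symm h5.symm
    have h4 : E.permCongr π = Equiv.prodCongr γ.right (Equiv.mulLeft (Perm.sign γ.right)) := by
      apply Equiv.ext
      intro y
      rw [Equiv.permCongr_apply, h3, E.apply_symm_apply]
    rw [← Perm.sign_permCongr E π, h4]
    exact sign_prod _ _ he

end evenidx

section quot

/-- The map of alternating wreath products induced by a homomorphism. -/
def awrMap {A B : Type} [Group A] [Group B] (f : A →* B) (n : ℕ) : AWr A n →* AWr B n where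
  toFun x := ⟨⟨fun i => f ((x : Wr A n).left i), (x : Wr A n).right⟩, x.2⟩
  map_one' := by
    apply Subtype.ext
    apply SemidirectProduct.ext
    · funext i
      exact map_one f
    · rfl
  map_mul' x y := by
    apply Subtype.ext
    apply SemidirectProduct.ext
    · funext i
      exact map_mul f _ _
    · rfl

theorem awrMap_surj {A B : Type} [Group A] [Group B] (f : A →* B) (hf : Function.Surjective f)
    (n : ℕ) : Function.Surjective (awrMap f n) := by
  rintro ⟨y, hy⟩
  choose s hs using hf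
  refine ⟨⟨⟨fun i => s (y.left i), y.right⟩, hy⟩, ?_⟩
  apply Subtype.ext
  apply SemidirectProduct.ext
  · funext i
    exact hs _
  · rfl

theorem regSol_surj (K A B : Type) [Field K] [CharZero K] [Group A] [Group B] (f : A →* B)
    (hf : Function.Surjective f) (h : RegSol K K A 1) : RegSol K K B 1 := by
  refine RegSol.quot (L := K) (L' := K) 1 1 f hf ?_ ?_ h
  · intro g
    apply AlgEquiv.ext
    intro x
    exact (AlgEquiv.commutes _ x).trans (AlgEquiv.commutes _ x).symm
  · intro ρ _
    refine ⟨1, map_one f, ?_⟩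
    apply AlgEquiv.ext
    intro x
    exact (AlgEquiv.commutes _ x).trans (AlgEquiv.commutes _ x).symm

end quot

end Pool.Agent.N70.AW
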