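import Mathlib
import Pool.Agent.N70.AW.Sg

/-!
The geometric group.
-/

set_option autoImplicit false
set_option linter.unusedSectionVars false
set_option linter.unusedSimpArgs false

namespace Pool.Agent.N70.AW

open Polynomial Pool.Agent.H391R2 Pool.Agent.H391R2.T4
open Pool.Agent.Y793 (cl sub_cl cl_closed cl_le St_gen St_iso St_ext St_grp tz Rl AWr)

section sols

variable {K Z N ι : Type} [Field K] [CharZero K] [Field Z] [Algebra (RatFunc K) Z] [Algebra K Z]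
  [IsScalarTower K (RatFunc K) Z] [FiniteDimensional (RatFunc K) Z] [IsGalois (RatFunc K) Z]
  [Fintype ι] [Field N] [Algebra K N] [IsAlgClosed N]
  {P : Subgroup (Z ≃ₐ[RatFunc K] Z)} {m k d : ℕ} {κ : Option ι → K[X]} {v : Option ι → Z}
  {x : Option ι → Option ι → Z} {e es : Fin m → Z} {S : Matrix (Fin m) (Fin m) K[X]} {q : K[X]}
  {M L : Option ι → Option ι → Matrix (Fin m) (Fin m) K[X]}
  (D : Dt P m k d κ v x e es S q M L)
  {k₀ : Type} [Field k₀] [Algebra K k₀] [Algebra k₀ N] [IsScalarTower K k₀ N]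
  (η : Ix ι → N) (hη : IsTranscendenceBasis k₀ η)

/-- The group of the automorphisms over `k₀`. -/
def HG (η : Ix ι → N) (P : Subgroup (Z ≃ₐ[RatFunc K] Z)) {n : ℕ} (r : Fin n → N)
    (φ : Fin n → (Z →ₐ[K] N)) (k₀ : Type) [Field k₀] [Algebra k₀ N] : Subgroup (Wr P n) where
  carrier := {x | ∃ σ : N ≃ₐ[k₀] N, (∀ i, σ (η i) = η i) ∧ Rl r φ σ x}
  one_mem' := ⟨1, fun _ => rfl, Rl.one⟩
  mul_mem' := by
    rintro x y ⟨σ, h1, h2⟩ ⟨τ, h3, h4⟩
    refine ⟨σ * τ, fun i => ?_, h2.mul h4⟩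
    change σ (τ (η i)) = η i
    rw [h3, h1]
  inv_mem' := by
    rintro x ⟨σ, h1, h2⟩
    refine ⟨σ⁻¹, fun i => ?_, h2.inv (fun a => σ.symm_apply_apply a)⟩
    change σ.symm (η i) = η i
    rw [AlgEquiv.symm_apply_eq, h1]

include D hη

theorem geo (hgen : St_gen) (hiso : St_iso) (hext : St_ext) (hgrp : St_grp) (hsm : St_small)
    (hreg : ∀ y : Z, IsAlgebraic K y → y ∈ Set.range (algebraMap K Z)) (t₀ : K)
    (hstar : ∀ (z : Z) (a : K), a ≠ 0 →
      z ^ 2 ≠ algebraMap (RatFunc K) Z (RatFunc.C a * (RatFunc.X - RatFunc.C t₀)))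
    {n : ℕ} {r : Fin n → N} {φ : Fin n → (Z →ₐ[K] N)}
    (Y : Sy κ x M k₀ (fun i => η (Sum.inl i)) (η (Sum.inr ())) n r φ)
    (hperf : commutator P = ⊤) (hn : 7 ≤ n)
    (hn2 : 2 * (Nat.card P) ^ 2 < (n - 2).factorial) (b : ℕ) (hb : b * b < n)
    (h3 : ∃ (σ : N ≃ₐ[k₀] N) (π : Equiv.Perm (Fin n)), (∀ i, σ (η i) = η i) ∧
      (∀ i, σ (r i) = r (π i)) ∧ π ≠ 1 ∧ π.support.card ≤ b)
    (y : Wr P n) (hy : y ∈ AWr P n) :
    ∃ σ : N ≃ₐ[k₀] N, (∀ i, σ (η i) = η i) ∧ Rl r φ σ y := by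
  have htr : ∀ a b a' b' : Fin n, a ≠ b → a' ≠ b' → ∀ γ γ' : P, ∃ x ∈ HG η P r φ k₀,
      x.right a = a' ∧ x.right b = b' ∧ x.left a' = γ ∧ x.left b' = γ' := by
    intro a b a' b' hab hab' γ γ'
    have hlp : ∀ (j : Fin n) (γ : P),
        LPt κ k₀ x (fun i => η (Sum.inl i)) (η (Sum.inr ())) (cg (φ j) γ) := by
      intro j γ
      refine lpt_of D ?_
      have h1 : FF κ x (fun i => η (Sum.inl i)) (φ j) = η (Sum.inr ()) := (Y.lp j).hT
      rw [← h1]
      unfold FF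
      rw [cg_tv]
      congr 1
      funext i i'
      rw [cg_apply, D.fix_x i i' γ γ.2]
    obtain ⟨σ, h1, h5, h6⟩ := pair_trans D.fm hgen hiso hext η hη hreg t₀ hstar x
      (Y.lp a) (Y.lp b) (hlp a' γ) (hlp b' γ')
      (fun h0 => hab (Y.inj (by rw [← Y.val, ← Y.val, h0])))
      (fun h0 => hab' (Y.inj (by
        rw [cg_tv, cg_tv, Y.val, Y.val] at h0
        exact h0.symm)))
    obtain ⟨y, hy⟩ := exists_x0 D η hη hgen hiso Y (σ.restrictScalars K) h1
    have ha : y.right a = a' := by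
      apply Y.inj
      rw [← (hy a).1, ← Y.val a, ← Y.val a']
      change σ _ = _
      rw [h5, cg_tv]
    have hb : y.right b = b' := by
      apply Y.inj
      rw [← (hy b).1, ← Y.val b, ← Y.val b']
      change σ _ = _
      rw [h6, cg_tv]
    refine ⟨y, ⟨σ, h1, hy⟩, ha, hb, ?_, ?_⟩
    · apply Subtype.ext
      apply AlgEquiv.ext
      intro z
      apply (φ a').injective
      have h7 := (hy a).2 z
      rw [ha] at h7
      exact h7.symm.trans (h5 z)
    · apply Subtype.ext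
      apply AlgEquiv.ext
      intro z
      apply (φ b').injective
      have h7 := (hy b).2 z
      rw [hb] at h7
      exact h7.symm.trans (h6 z)
  have hfin : Finite P := inferInstance
  refine hgrp P hperf n hn hn2 (HG η _ r φ k₀) htr ?_ hy
  refine hsm P n b (HG η _ r φ k₀) hb ?_ ?_
  · intro a c a' c' hac hac'
    obtain ⟨z, h1, h2, h4, -, -⟩ := htr a c a' c' hac hac' 1 1
    exact ⟨z, h1, h2, h4⟩
  · obtain ⟨σ, π, h1, h2, h4, h5⟩ := h3
    obtain ⟨y, hy⟩ := exists_x0 D η hη hgen hiso Y (σ.restrictScalars K) h1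
    have h6 : y.right = π := by
      apply Equiv.ext
      intro i
      apply Y.inj
      rw [← (hy i).1, ← h2]
      rfl
    exact ⟨y, ⟨σ, h1, hy⟩, by rw [h6]; exact h4, by rw [h6]; exact h5⟩

end sols

end Pool.Agent.N70.AW
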