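import Mathlib
import Pool.Agent.N70.AW.Si
import Pool.Agent.Y793.Asb

/-!
Assembly.
-/

set_option autoImplicit false
set_option linter.unusedSectionVars false
set_option linter.unusedSimpArgs false

namespace Pool.Agent.N70.AW

open Polynomial Pool.Agent.H391R2 Pool.Agent.H391R2.T4
open Pool.Agent.Y793 (St_gen St_iso St_ext St_star St_grp St_arith Rl AWr exists_trb aCongr
  perf_congr regSol_congr)

section core

variable {K Z : Type} [Field K] [CharZero K] [Field Z] [Algebra (RatFunc K) Z] [Algebra K Z]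
  [IsScalarTower K (RatFunc K) Z] [FiniteDimensional (RatFunc K) Z] [IsGalois (RatFunc K) Z]

theorem core (hgen : St_gen) (hiso : St_iso) (hext : St_ext) (hstar : St_star) (hgrp : St_grp)
    (hari : St_arith) (hdat : St_dat) (hevn : St_even) (hsm : St_small) (hhens : St_hens)
    (hval : St_val)
    (hreg : ∀ y : Z, IsAlgebraic K y → y ∈ Set.range (algebraMap K Z))
    (P : Subgroup (Z ≃ₐ[RatFunc K] Z)) (m : ℕ) (hperf : commutator P = ⊤) (hm : Even m)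
    (hm0 : 0 < m) (hidx : EvenIndex (Z ≃ₐ[RatFunc K] Z) P m) :
    ∃ k₀ : ℕ, ∀ k ≥ k₀, RegSol K K (AWr P (m * (2 * k + 1))) 1 := by
  classical
  obtain ⟨g, hg, -⟩ := id hidx
  obtain ⟨k₁, hk₁⟩ := hdat K Z hreg P m hidx
  obtain ⟨t₀, ht₀⟩ := hstar K Z
  refine ⟨k₁ + 2 + (Nat.card P) ^ 2 + 8 * m + 1, fun k hk => ?_⟩
  obtain ⟨k, rfl⟩ : ∃ k', k = k' + 2 := ⟨k - 2, by omega⟩
  obtain ⟨p, d, κ, v, x, e, es, S, q, M, L, D, hdeg, D₁⟩ := hk₁ k (by omega)
  let k₀ := AlgebraicClosure K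
  obtain ⟨N, i1, i2, i3, η, hη⟩ := exists_trb k₀ (Ix (Option (Fin p)))
  let i4 : Algebra K N := ((algebraMap k₀ N).comp (algebraMap K k₀)).toAlgebra
  have i5 : IsScalarTower K k₀ N := .of_algebraMap_eq fun _ => rfl
  obtain ⟨r, φ, Y⟩ := exists_sy D η hη hgen hiso g hg.1
  have hsmall := exists_small D D₁ hdeg η hη hgen hiso hhens hval hm0 g hg.1 Y.inj Y.root
  have hm2 : 2 ≤ m := by
    obtain ⟨a, ha⟩ := hm
    omega
  have hn1 : 2 * (2 * (k + 2) + 1) ≤ m * (2 * (k + 2) + 1) := Nat.mul_le_mul_right _ hm2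
  have hn2 : 2 * (Nat.card P) ^ 2 < (m * (2 * (k + 2) + 1) - 2).factorial := by
    refine lt_of_lt_of_le ?_ (Nat.self_le_factorial _)
    omega
  have hn3 : 4 * m * (4 * m) < m * (2 * (k + 2) + 1) := by
    have h1 : 4 * m * (4 * m) = m * (16 * m) := by ring
    rw [h1]
    exact Nat.mul_lt_mul_of_pos_left (by omega) hm0
  have hgeo := geo D η hη hgen hiso hext hgrp hsm hreg t₀ ht₀ Y hperf (by omega) hn2 (4 * m) hn3
    hsmall
  obtain ⟨θ, hθ⟩ := Field.exists_primitive_element (RatFunc K) Z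
  refine hari K k₀ N (Ix (Option (Fin p))) η hη P _
    (AWr P (m * (2 * (k + 2) + 1))) r Y.inj
    (fun i γ => φ i ((γ : Z ≃ₐ[RatFunc K] Z) θ)) ?_ ?_ ?_
  · intro i γ γ' hγ
    have h4 : (γ : Z ≃ₐ[RatFunc K] Z) θ = (γ' : Z ≃ₐ[RatFunc K] Z) θ := (φ i).injective hγ
    apply Subtype.ext
    apply AlgEquiv.ext
    intro z
    have h5 : z ∈ IntermediateField.adjoin (RatFunc K) {θ} := by
      rw [hθ]
      exact IntermediateField.mem_top
    exact eq_on_adjoin ((γ : Z ≃ₐ[RatFunc K] Z) : Z →ₐ[RatFunc K] Z)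
      ((γ' : Z ≃ₐ[RatFunc K] Z) : Z →ₐ[RatFunc K] Z) {θ} (by
        rintro s hs
        rw [Set.mem_singleton_iff.1 hs]
        exact h4) z h5
  · intro σ hσ
    obtain ⟨y, hy, hy2⟩ := exists_x D η hη hgen hiso hevn hm hm0 Y σ hσ
    exact ⟨y, hy, fun i => ⟨(hy2 i).1, fun γ => (hy2 i).2 _⟩⟩
  · intro y hy
    obtain ⟨σ, h1, h2⟩ := hgeo y hy
    exact ⟨σ, h1, fun i => ⟨(h2 i).1, fun γ => (h2 i).2 _⟩⟩

end core

theorem evenIndex_comap {Γ Γ' : Type} [Group Γ] [Group Γ'] (γ : Γ' ≃* Γ) (P : Subgroup Γ) (m : ℕ)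
    (h : EvenIndex Γ P m) : EvenIndex Γ' (P.comap (γ : Γ' →* Γ)) m := by
  obtain ⟨g, hg, h2⟩ := h
  have key : ∀ a b : Γ', ((a : Γ' ⧸ P.comap (γ : Γ' →* Γ)) = b) ↔ ((γ a : Γ ⧸ P) = γ b) := by
    intro a b
    rw [QuotientGroup.eq, QuotientGroup.eq, Subgroup.mem_comap]
    simp
  refine ⟨fun t => γ.symm (g t), ⟨fun t t' htt => hg.1 ?_, fun a => ?_⟩, fun a π h => ?_⟩
  · have h3 := (key _ _).1 htt
    simpa using h3
  · obtain ⟨a, rfl⟩ := QuotientGroup.mk_surjective a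
    obtain ⟨t, ht⟩ := hg.2 (γ a : Γ ⧸ P)
    refine ⟨t, (key _ _).2 ?_⟩
    simpa using ht
  · refine h2 (γ a) π fun t => ?_
    have h3 := (key _ _).1 (h t)
    simpa using h3

theorem wr_of (hgen : St_gen) (hiso : St_iso) (hext : St_ext) (hstar : St_star) (hgrp : St_grp)
    (hari : St_arith) (hdat : St_dat) (hevn : St_even) (hsm : St_small) (hhens : St_hens)
    (hval : St_val) : St_wr := by
  intro K _ _ Γ _ _ hΓ P m hperf hm hm0 hidx
  obtain ⟨Z, i1, i2, i3, i4, i5, i6, i7, i8, γ, -, hreg⟩ := hΓ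
  have h34 : i3 = i4 := Algebra.algebra_ext i3 i4 (fun x =>
    (@IsScalarTower.algebraMap_apply K K Z _ _ _ _ i3 i4 i6 x).symm)
  subst h34
  let P' : Subgroup (Z ≃ₐ[RatFunc K] Z) := P.comap (γ : (Z ≃ₐ[RatFunc K] Z) →* Γ)
  let e : P' ≃* P := (γ.subgroupMap _).trans (MulEquiv.subgroupCongr
      (Subgroup.map_comap_eq_self_of_surjective γ.surjective P))
  have hperf' : commutator P' = ⊤ := perf_congr e.symm hperf
  obtain ⟨k₀, hk₀⟩ := core hgen hiso hext hstar hgrp hari hdat hevn hsm hhens hval hreg P' m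
    hperf' hm hm0 (evenIndex_comap γ P m hidx)
  exact ⟨k₀, fun k hk => regSol_congr K _ _ (aCongr e _) (hk₀ k hk)⟩

end Pool.Agent.N70.AW
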