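import Mathlib
import Pool.Agent.N70.AW.Sj
import Pool.Agent.Y793.Fin
import Pool.Agent.N157.AW.Dat
import Pool.Agent.N24.AW.Small
import Pool.Agent.N400.AW.CV
import Pool.Agent.N400.AW.HENS
import Pool.Agent.N455.AW.Deg
import Pool.Agent.N478.AW.Emb
import Pool.Agent.N483.AW.Der
import Pool.Agent.N558.AW.Even
import Pool.Agent.N945.AW.Val
import Pool.Agent.N70.AW.Gp
import Pool.Agent.TH444.TW.RSK

set_option autoImplicit false
set_option linter.unusedSectionVars false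
set_option linter.unusedSimpArgs false

namespace Pool.Agent.N70.AW

open Pool.Agent.H391R2 Pool.Agent.H391R2.T4
open Pool.Agent.Y793 (AWr aCongr regSol_congr perf_congr reg_wr)

theorem dat : St_dat := N157.AW.datOf N483.AW.der_all N400.AW.CV.t_cv N455.AW.deg

theorem wr : St_wr :=
  wr_of Y203.J.t_gen Y203.J.t_iso Y241.WR.t_ext Y241.WR.t_star Y241.WR.t_grp
    Y203.J.Ari.t_arith dat N558.AW.even N24.AW.small N400.AW.HENS.t_hens N945.AW.val

theorem reg_alt (K : Type) [Field K] [CharZero K] (G : Type) [Group G] [Finite G]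
    (hG : commutator G = ⊤) :
    ∃ r₀ : ℕ, ∀ r ≥ r₀, ∃ k₀ : ℕ, ∀ k ≥ k₀, RegSol K K (AWr G (4 * r * (2 * k + 1))) 1 := by
  obtain ⟨n₀, hn₀⟩ := reg_wr K G
  refine ⟨n₀ + 3, fun r hr => ?_⟩
  have hfin : Finite (Wr G (2 * r)) := finite_wr G (2 * r)
  let i₀ : Fin (2 * r) := ⟨0, by omega⟩
  obtain ⟨k₀, hk₀⟩ := wr K (Wr G (2 * r)) (hn₀ (2 * r) (by omega)) (Ps G i₀) (2 * r * 2)
    (Ps_perf G i₀ hG (by omega)) (even_two.mul_left _) (by omega)
    (Ps_even G (by omega) (even_two_mul r) i₀)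
  refine ⟨k₀, fun k hk => ?_⟩
  have h1 := regSol_surj K _ _ (awrMap (PsG G i₀) _) (awrMap_surj _ (PsG_surj G i₀) _) (hk₀ k hk)
  have h2 : 2 * r * 2 = 4 * r := by ring
  rwa [h2] at h1

/-- Uniformity in the field. -/
theorem reg_alt_unif (G : Type) [Group G] [Finite G] (hG : commutator G = ⊤) :
    ∃ r₀ : ℕ, ∀ r ≥ r₀, ∃ k₀ : ℕ, ∀ k ≥ k₀, 5 ≤ 4 * r * (2 * k + 1) ∧
      Finite (AWr G (4 * r * (2 * k + 1))) ∧
      ∀ (K : Type) [Field K] [CharZero K], RegSol K K (AWr G (4 * r * (2 * k + 1))) 1 := by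
  obtain ⟨r₀, h⟩ := reg_alt ℚ G hG
  refine ⟨r₀ + 2, fun r hr => ?_⟩
  obtain ⟨k₀, h2⟩ := h r (by omega)
  refine ⟨k₀, fun k hk => ?_⟩
  have hf : Finite (Wr G (4 * r * (2 * k + 1))) := finite_wr G _
  have hf2 : Finite (AWr G (4 * r * (2 * k + 1))) := inferInstance
  refine ⟨?_, hf2, fun K _ _ => TH444.TW.reg_base ℚ K _ (h2 k hk)⟩
  have h3 : 4 * 2 * 1 ≤ 4 * r * (2 * k + 1) :=
    Nat.mul_le_mul (Nat.mul_le_mul_left _ (by omega)) (by omega)
  omega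

end Pool.Agent.N70.AW
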